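import Mathlib

set_option autoImplicit false

open Finset

namespace Pool.Agent.Lib.MP_ccfeb5_co

/-- Egervary duality for perfect matchings with integer weights. -/
theorem egervary {X : Type} [Fintype X] (r : X → X → Prop) (w : X → X → ℤ) (hr : ∀ x, r x x) :
    ∃ (α β : X → ℤ) (σ : X → X), Function.Injective σ ∧ (∀ x y, r x y → w x y ≤ α x + β y) ∧
      ∀ x, r x (σ x) ∧ w x (σ x) = α x + β (σ x) := by
  classical
  obtain ⟨z, ⟨α, β, hf, hz⟩, hmin⟩ := Int.exists_least_of_bdd
    (P := fun z => ∃ α β : X → ℤ, (∀ x y, r x y → w x y ≤ α x + β y) ∧ z = ∑ x, α x + ∑ x, β x)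
    ⟨∑ x, w x x, by
      rintro z ⟨α, β, hf, rfl⟩
      rw [← Finset.sum_add_distrib]
      exact Finset.sum_le_sum fun x _ => hf x x (hr x)⟩
    ⟨_, fun x => ∑ y, |w x y|, fun _ => 0, fun x y _ => by
      rw [add_zero]
      exact (le_abs_self _).trans (Finset.single_le_sum (f := fun y => |w x y|)
        (fun _ _ => abs_nonneg _) (mem_univ y)), rfl⟩
  obtain ⟨σ, h1, h2⟩ := (Fintype.all_card_le_filter_rel_iff_exists_injective
    (fun x y => r x y ∧ w x y = α x + β y)).1 fun A => by
      by_contra hA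
      set B : Finset X := {b | ∃ a ∈ A, r a b ∧ w a b = α a + β b} with hB
      have h3 := hmin _ ⟨fun x => α x - if x ∈ A then 1 else 0,
        fun y => β y + if y ∈ B then 1 else 0, fun x y hxy => by
          have h4 := hf x y hxy
          by_cases hx : x ∈ A
          · by_cases hy : y ∈ B
            · simp only [if_pos hx, if_pos hy]; omega
            · have h5 : w x y ≠ α x + β y := fun h => hy (by
                rw [hB, mem_filter]; exact ⟨mem_univ _, x, hx, hxy, h⟩)
              simp only [if_pos hx, if_neg hy]; omega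
          · simp only [if_neg hx]; split_ifs <;> omega, rfl⟩
      rw [Finset.sum_sub_distrib, Finset.sum_add_distrib, hz] at h3
      simp only [sum_ite_mem, univ_inter, sum_const, nsmul_eq_mul, mul_one] at h3
      omega
  exact ⟨α, β, σ, h1, hf, h2⟩

/-- A spanning forest of out-trees in which every arc either raises the level or goes from a
vertex to one of its ancestors. -/
theorem exists_forest {V : Type} [Fintype V] (A : V → V → Prop) :
    ∃ (par : V → V) (lev : V → ℕ), (∀ v, lev v ≠ 0 → A (par v) v ∧ lev v = lev (par v) + 1) ∧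
      ∀ u v, A u v → lev u < lev v ∨
        Relation.ReflTransGen (fun x y => lev x ≠ 0 ∧ par x = y) u v := by
  classical
  have hb : ∀ (par : V → V) (lev : V → ℕ),
      (∀ v, lev v ≠ 0 → A (par v) v ∧ lev v = lev (par v) + 1) →
      ∀ v, lev v ≤ Fintype.card V := by
    intro par lev h v
    have key : ∀ n v, lev v = n → ∀ j ≤ n, ∃ x, lev x = j := by
      intro n
      induction n with
      | zero => intro v hv j hj; exact ⟨v, by omega⟩
      | succ n ih =>
        intro v hv j hj
        rcases eq_or_lt_of_le hj with rfl | hj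
        · exact ⟨v, hv⟩
        · exact ih (par v) (by have := (h v (by omega)).2; omega) j (by omega)
    have h1 : range (lev v + 1) ⊆ univ.image lev := fun j hj => by
      obtain ⟨x, hx⟩ := key _ v rfl j (Nat.lt_succ_iff.1 (mem_range.1 hj))
      exact mem_image.2 ⟨x, mem_univ _, hx⟩
    have h2 := (card_le_card h1).trans card_image_le
    rw [card_range, card_univ] at h2
    omega
  obtain ⟨z, ⟨par, lev, hv, hz⟩, hmax⟩ := Int.exists_greatest_of_bdd
    (P := fun z => ∃ (par : V → V) (lev : V → ℕ),
      (∀ v, lev v ≠ 0 → A (par v) v ∧ lev v = lev (par v) + 1) ∧ z = ((∑ v, lev v : ℕ) : ℤ))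
    ⟨(Fintype.card V * Fintype.card V : ℕ), by
      rintro z ⟨par, lev, hv, rfl⟩
      have := Finset.sum_le_card_nsmul univ lev _ fun v _ => hb par lev hv v
      exact_mod_cast this⟩
    ⟨_, id, fun _ => 0, fun v h => absurd rfl h, rfl⟩
  refine ⟨par, lev, hv, fun u v huv => ?_⟩
  by_contra hc
  rw [not_or, not_lt] at hc
  obtain ⟨h1, h2⟩ := hc
  set up : V → V → Prop := fun x y => lev x ≠ 0 ∧ par x = y with hup
  have h3 := hmax _ ⟨Function.update par v u,
    fun x => lev x + if Relation.ReflTransGen up x v then lev u + 1 - lev v else 0,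
    fun x hx => by
      beta_reduce at hx ⊢
      by_cases hxv : x = v
      · subst hxv
        rw [Function.update_self, if_pos Relation.ReflTransGen.refl, if_neg h2]
        exact ⟨huv, by omega⟩
      · rw [Function.update_of_ne hxv]
        by_cases hd : Relation.ReflTransGen up x v
        · obtain ⟨y, ⟨h4, rfl⟩, h5⟩ := hd.cases_head.resolve_left hxv
          rw [if_pos hd, if_pos h5]
          have := hv x h4
          exact ⟨this.1, by omega⟩
        · simp only [if_neg hd, add_zero] at hx ⊢
          rw [if_neg fun h5 => hd (Relation.ReflTransGen.head ⟨hx, rfl⟩ h5)]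
          exact hv x hx, rfl⟩
  rw [hz, Finset.sum_add_distrib] at h3
  have h4 := Finset.single_le_sum
    (f := fun x => if Relation.ReflTransGen up x v then lev u + 1 - lev v else 0)
    (fun _ _ => Nat.zero_le _) (mem_univ v)
  simp only [if_pos Relation.ReflTransGen.refl] at h4
  omega

/-- Reading off disjoint paths from a permutation of the vertices and k extra points. -/
theorem paths_of_perm {V : Type} [Fintype V] [DecidableEq V] {k : ℕ} (H : V → V → Prop)
    (lev : V → ℕ) (hH : ∀ u v, H u v → lev u < lev v) (σ : V ⊕ Fin k → V ⊕ Fin k)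
    (hσ : Function.Injective σ) (h : ∀ u v, σ (.inl u) = .inl v → u = v ∨ H u v) :
    ∃ p : Fin k → List V, (∀ i, (p i).Nodup ∧
        ∀ (n : ℕ) (u v : V), (p i)[n]? = some u → (p i)[n + 1]? = some v → H u v) ∧
      (∀ i j, i ≠ j → List.Disjoint (p i) (p j)) ∧
      ∀ v, σ (.inl v) ≠ .inl v → ∃ i, v ∈ p i := by
  classical
  have hex : ∀ i : Fin k, ∃ m, (σ^[m + 1] (.inr i)).isRight = true := by
    intro i
    obtain ⟨m, hm, h1⟩ := hσ.mem_periodicPts (.inr i)
    obtain ⟨m, rfl⟩ : ∃ m', m = m' + 1 := ⟨m - 1, by omega⟩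
    exact ⟨m, by rw [h1.eq]; rfl⟩
  have hl : ∀ i n, n < Nat.find (hex i) → (σ^[n + 1] (.inr i)).isLeft = true := by
    intro i n hn
    have := Nat.find_min (hex i) hn
    simpa using this
  let p : Fin k → List V := fun i =>
    List.ofFn fun n : Fin (Nat.find (hex i)) => (σ^[n + 1] (.inr i)).getLeft (hl i n n.2)
  have hget : ∀ i n u, (p i)[n]? = some u ↔ n < Nat.find (hex i) ∧ σ^[n + 1] (.inr i) = .inl u := by
    intro i n u
    simp only [p, List.getElem?_ofFn]
    split_ifs with hn
    · simp only [hn, true_and, Option.some.injEq]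
      exact Sum.getLeft_eq_iff _
    · simp only [hn, false_and]
  have hmem : ∀ i u, u ∈ p i ↔ ∃ n, n < Nat.find (hex i) ∧ σ^[n + 1] (.inr i) = .inl u := by
    intro i u
    rw [List.mem_iff_getElem?]
    exact exists_congr fun n => hget i n u
  have hinj : ∀ i j a b, a ≤ b → b < Nat.find (hex j) →
      σ^[a + 1] (.inr i) = σ^[b + 1] (.inr j) → i = j ∧ a = b := by
    intro i j a b hab hb e
    obtain ⟨d, rfl⟩ := Nat.exists_eq_add_of_le hab
    rw [show a + d + 1 = (a + 1) + d by ring, Function.iterate_add_apply σ (a + 1) d] at e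
    have e2 := (hσ.iterate (a + 1)) e
    cases d with
    | zero => exact ⟨Sum.inr_injective e2, rfl⟩
    | succ d =>
      have := hl j d (by omega)
      rw [← e2] at this
      simp at this
  refine ⟨p, fun i => ⟨?_, fun n u v hu hv => ?_⟩, fun i j hij v hi hj => ?_, fun v => ?_⟩
  · rw [List.nodup_ofFn]
    intro a b e
    have e2 : σ^[a + 1] (.inr i) = σ^[b + 1] (.inr i) := by
      rw [← Sum.inl_getLeft _ (hl i a a.2), ← Sum.inl_getLeft _ (hl i b b.2)]
      exact congrArg Sum.inl e
    rcases le_total (a : ℕ) b with hab | hab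
    · exact Fin.ext (hinj i i a b hab b.2 e2).2
    · exact Fin.ext (hinj i i b a hab a.2 e2.symm).2.symm
  · obtain ⟨h1, h2⟩ := (hget i n u).1 hu
    obtain ⟨h3, h4⟩ := (hget i (n + 1) v).1 hv
    have h5 := h4
    rw [Function.iterate_succ_apply', h2] at h5
    refine (h u v h5).resolve_left ?_
    rintro rfl
    have := (hinj i i n (n + 1) (by omega) h3 (h2.trans h4.symm)).2
    omega
  · obtain ⟨a, h1, h2⟩ := (hmem i v).1 hi
    obtain ⟨b, h3, h4⟩ := (hmem j v).1 hj
    rcases le_total a b with hab | hab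
    · exact hij (hinj i j a b hab h3 (h2.trans h4.symm)).1
    · exact hij (hinj j i b a hab h1 (h4.trans h2.symm)).1.symm
  · induction hn : lev v using Nat.strong_induction_on generalizing v with
    | _ n ih =>
      intro hv
      obtain ⟨x, hx⟩ := (Finite.injective_iff_surjective.1 hσ) (.inl v)
      have key : ∀ i m, m ≤ Nat.find (hex i) → σ^[m + 1] (.inr i) = .inl v → ∃ i, v ∈ p i := by
        intro i m hm e
        refine ⟨i, (hmem i v).2 ⟨m, lt_of_le_of_ne hm ?_, e⟩⟩
        rintro rfl
        have := Nat.find_spec (hex i)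
        rw [e] at this
        simp at this
      cases x with
      | inr i => exact key i 0 (Nat.zero_le _) hx
      | inl u =>
        have huv : u ≠ v := by rintro rfl; exact hv hx
        obtain ⟨i, hi⟩ := ih (lev u) (hn ▸ hH u v ((h u v hx).resolve_left huv)) u rfl
          (by rw [hx]; exact fun e => huv (Sum.inl_injective e).symm)
        obtain ⟨m, h1, h2⟩ := (hmem i u).1 hi
        exact key i (m + 1) h1 (by rw [Function.iterate_succ_apply', h2, hx])

/-- Duality for k disjoint paths in an acyclic digraph. -/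
theorem acyclic_dual {V : Type} [Fintype V] [DecidableEq V] {k : ℕ} (hk : 0 < k)
    (H : V → V → Prop) (lev : V → ℕ) (hH : ∀ u v, H u v → lev u < lev v) :
    ∃ (p : Fin k → List V) (a b : V → ℤ) (T : ℤ), (∀ i, (p i).Nodup ∧
        ∀ (n : ℕ) (u v : V), (p i)[n]? = some u → (p i)[n + 1]? = some v → H u v) ∧
      (∀ i j, i ≠ j → List.Disjoint (p i) (p j)) ∧ 0 ≤ T ∧ (∀ v, 0 ≤ a v) ∧ (∀ v, b v ≤ T) ∧
      (∀ v, b v ≤ a v + 1) ∧ (∀ u v, H u v → b u ≤ a v) ∧
      k * T + ∑ v, (1 + a v - b v) ≤ (univ.biUnion fun i => (p i).toFinset).card := by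
  classical
  obtain ⟨α, β, σ, hσ, hf, ht⟩ := egervary (X := V ⊕ Fin k)
    (fun x y => ∀ u v, x = .inl u → y = .inl v → u = v ∨ H u v)
    (fun x y => if x.isLeft = true ∧ x ≠ y then 1 else 0)
    (fun x u v hu hv => Or.inl (Sum.inl_injective (hu.symm.trans hv)))
  obtain ⟨p, hp1, hp2, hp3⟩ := paths_of_perm H lev hH σ hσ fun u v e => (ht _).1 u v rfl e
  have : Nonempty (Fin k) := ⟨⟨0, hk⟩⟩
  obtain ⟨i0, hi0⟩ := Finite.exists_min fun i : Fin k => α (.inr i)
  obtain ⟨j0, hj0⟩ := Finite.exists_min fun i : Fin k => β (.inr i)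
  refine ⟨p, fun v => β (.inl v) + α (.inr i0), fun v => 1 - α (.inl v) + α (.inr i0),
    α (.inr i0) + β (.inr j0), hp1, hp2, ?_, fun v => ?_, fun v => ?_, fun v => ?_,
    fun u v huv => ?_, ?_⟩
  · simpa using hf (.inr i0) (.inr j0) (by simp)
  · have := hf (.inr i0) (.inl v) (by simp)
    simp only [Sum.isLeft_inr, Bool.false_eq_true, false_and, if_false] at this
    linarith
  · have := hf (.inl v) (.inr j0) (by simp)
    simp only [Sum.isLeft_inl, ne_eq, reduceCtorEq, not_false_eq_true, and_self, if_true] at this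
    linarith
  · have := hf (.inl v) (.inl v) fun u w hu hw => Or.inl (Sum.inl_injective (hu.symm.trans hw))
    simp only [ne_eq, not_true_eq_false, and_false, if_false] at this
    linarith
  · have hne : u ≠ v := by rintro rfl; exact lt_irrefl _ (hH _ _ huv)
    have := hf (.inl u) (.inl v) fun u' v' hu hv => by
      rw [← Sum.inl_injective hu, ← Sum.inl_injective hv]; exact Or.inr huv
    rw [if_pos ⟨rfl, fun e => hne (Sum.inl_injective e)⟩] at this
    linarith
  · have e1 : ∑ x, (if x.isLeft = true ∧ x ≠ σ x then (1 : ℤ) else 0) = ∑ x, α x + ∑ x, β x := by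
      rw [← (Finite.injective_iff_bijective.1 hσ).sum_comp β, ← Finset.sum_add_distrib]
      exact Finset.sum_congr rfl fun x _ => (ht x).2
    have e2 : ∑ x, (if x.isLeft = true ∧ x ≠ σ x then (1 : ℤ) else 0) ≤
        (univ.biUnion fun i => (p i).toFinset).card := by
      rw [Fintype.sum_sum_type]
      simp only [Sum.isLeft_inr, Bool.false_eq_true, false_and, if_false, sum_const_zero,
        add_zero, Sum.isLeft_inl, true_and]
      rw [Finset.sum_boole]
      refine Int.ofNat_le.2 (card_le_card fun v hv => ?_)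
      obtain ⟨i, hi⟩ := hp3 v (mem_filter.1 hv).2.symm
      exact mem_biUnion.2 ⟨i, mem_univ _, List.mem_toFinset.2 hi⟩
    rw [e1, Fintype.sum_sum_type, Fintype.sum_sum_type] at e2
    have e3 : k * α (.inr i0) ≤ ∑ i, α (.inr i) := by
      simpa using Finset.card_nsmul_le_sum univ (fun i => α (.inr i)) _ fun i _ => hi0 i
    have e4 : k * β (.inr j0) ≤ ∑ i, β (.inr i) := by
      simpa using Finset.card_nsmul_le_sum univ (fun i => β (.inr i)) _ fun i _ => hj0 i
    have e5 : ∑ v, (1 + (β (.inl v) + α (.inr i0)) - (1 - α (.inl v) + α (.inr i0))) =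
        ∑ v, α (.inl v) + ∑ v, β (.inl v) := by
      rw [← Finset.sum_add_distrib]
      exact Finset.sum_congr rfl fun v _ => by ring
    rw [e5]
    linarith

open Classical in
/-- Vertices that have a descendant of their own colour are paid for by the drops. -/
theorem removed_le {V : Type} [Fintype V] (up : V → V → Prop) (hup : Relator.RightUnique up)
    (a b : V → ℤ) (hab : ∀ x y, up x y → b y ≤ a x) :
    (univ.filter fun h => a h < b h ∧ ∃ u, u ≠ h ∧ a u < b u ∧ b u = b h ∧
      Relation.ReflTransGen up u h).card ≤ ∑ w, (a w - b w).toNat := by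
  have e : ∑ w, (a w - b w).toNat = (univ.sigma fun w => Finset.Ioc (b w) (a w)).card := by
    rw [card_sigma]
    simp
  rw [e]
  refine card_le_card_of_forall_subsingleton (fun h x => x.2 = b h ∧
    Relation.ReflTransGen (fun x y => up x y ∧ b h ≤ b y) x.1 h) (fun h hh => ?_) ?_
  · obtain ⟨h1, u, h2, h3, h4, h5⟩ := (mem_filter.1 hh).2
    have key : ∀ x, Relation.ReflTransGen up x h →
        (b h ≤ b x ∧ Relation.ReflTransGen (fun x y => up x y ∧ b h ≤ b y) x h) ∨
        ∃ w, b w < b h ∧ b h ≤ a w ∧ Relation.ReflTransGen (fun x y => up x y ∧ b h ≤ b y) w h := by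
      intro x hx
      induction hx using Relation.ReflTransGen.head_induction_on with
      | refl => exact Or.inl ⟨le_rfl, .refl⟩
      | @head x y hxy _ ih =>
        rcases ih with ⟨k1, k2⟩ | k
        · by_cases k3 : b h ≤ b x
          · exact Or.inl ⟨k3, .head ⟨hxy, k1⟩ k2⟩
          · exact Or.inr ⟨x, not_le.1 k3, k1.trans (hab x y hxy), .head ⟨hxy, k1⟩ k2⟩
        · exact Or.inr k
    obtain ⟨y, k1, k2⟩ := h5.cases_head.resolve_left h2
    rcases key y k2 with ⟨k3, _⟩ | ⟨w, k3, k4, k5⟩
    · have := hab u y k1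
      omega
    · exact ⟨⟨w, b h⟩, by simp [k3, k4], rfl, k5⟩
  · rintro x _ h ⟨hh, e1, r1⟩ h' ⟨hh', e2, r2⟩
    have k1 := (mem_filter.1 (mem_coe.1 hh)).2.1
    have k2 := (mem_filter.1 (mem_coe.1 hh')).2.1
    have e3 : b h' = b h := e2.symm.trans e1
    rw [e3] at r2
    rcases Relation.ReflTransGen.total_of_right_unique (fun _ _ _ p q => hup p.1 q.1) r1 r2
      with r | r
    · refine r.cases_head.resolve_right ?_
      rintro ⟨y, ⟨k3, k4⟩, _⟩
      have := hab _ _ k3
      omega
    · refine (r.cases_head.resolve_right ?_).symm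
      rintro ⟨y, ⟨k3, k4⟩, _⟩
      have := hab _ _ k3
      omega

/-- A partial colouring with colours 1, ..., T extends by singletons. -/
theorem colouring {V : Type} [Fintype V] [DecidableEq V] (A : V → V → Prop) (hA : ∀ v, ¬ A v v)
    (k T : ℕ) (K : Finset V) (b : V → ℕ) (hb : ∀ v ∈ K, 1 ≤ b v ∧ b v ≤ T)
    (hK : ∀ u ∈ K, ∀ v ∈ K, A u v → b u ≠ b v) :
    ∃ c : V → ℕ, (∀ u v, A u v → c u ≠ c v) ∧
      ∑ x ∈ univ.image c, min (univ.filter fun v => c v = x).card k ≤ k * T + Kᶜ.card := by
  let e := Fintype.equivFin V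
  let c : V → ℕ := fun v => if v ∈ K then b v else T + 1 + e v
  have hc : ∀ u v, v ∉ K → c u = c v → u = v := by
    intro u v hv h
    simp only [c, if_neg hv] at h
    split_ifs at h with hu
    · have := hb u hu; omega
    · exact e.injective (Fin.ext (by omega))
  refine ⟨c, fun u v huv h => ?_, ?_⟩
  · by_cases hv : v ∈ K
    · by_cases hu : u ∈ K
      · simp only [c, if_pos hu, if_pos hv] at h
        exact hK u hu v hv huv h
      · exact hA u (by rwa [hc v u hu h.symm] at huv)
    · exact hA v (by rwa [hc u v hv h] at huv)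
  · have h1 : univ.image c ⊆ Finset.Icc 1 T ∪ Kᶜ.image c := by
      intro x hx
      obtain ⟨v, _, rfl⟩ := mem_image.1 hx
      by_cases hv : v ∈ K
      · refine mem_union_left _ ?_
        simp only [c, if_pos hv, mem_Icc]
        exact hb v hv
      · exact mem_union_right _ (mem_image_of_mem _ (mem_compl.2 hv))
    refine (Finset.sum_le_sum_of_subset h1).trans ?_
    have h2 := Finset.sum_union_inter (s₁ := Finset.Icc 1 T) (s₂ := Kᶜ.image c)
      (f := fun x => min (univ.filter fun v => c v = x).card k)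
    have h3 : ∑ x ∈ Finset.Icc 1 T, min (univ.filter fun v => c v = x).card k ≤ k * T := by
      simpa [mul_comm] using Finset.sum_le_card_nsmul (Finset.Icc 1 T)
        (fun x => min (univ.filter fun v => c v = x).card k) k fun x _ => min_le_right _ _
    have h4 : ∑ x ∈ Kᶜ.image c, min (univ.filter fun v => c v = x).card k ≤ Kᶜ.card := by
      refine (Finset.sum_le_card_nsmul _ _ 1 fun x hx => ?_).trans ?_
      · obtain ⟨v, hv, rfl⟩ := mem_image.1 hx
        refine (min_le_left _ _).trans (card_le_one.2 fun u hu u' hu' => ?_)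
        rw [hc u v (mem_compl.1 hv) (mem_filter.1 hu).2,
          hc u' v (mem_compl.1 hv) (mem_filter.1 hu').2]
      · simpa using card_image_le
    omega

theorem linial_dual (V : Type) [Fintype V] [DecidableEq V] (A : V → V → Prop)
    (hA : ∀ v, ¬ A v v) (k : ℕ) (hk : 0 < k) :
    ∃ (p : Fin k → List V) (c : V → ℕ),
      (∀ i, (p i).Nodup ∧
        ∀ (n : ℕ) (u v : V), (p i)[n]? = some u → (p i)[n + 1]? = some v → A u v) ∧
      (∀ i j, i ≠ j → List.Disjoint (p i) (p j)) ∧ (∀ u v, A u v → c u ≠ c v) ∧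
      ∑ x ∈ univ.image c, min (univ.filter fun v => c v = x).card k
        ≤ (univ.biUnion fun i => (p i).toFinset).card := by
  classical
  obtain ⟨par, lev, hv, hf⟩ := exists_forest A
  obtain ⟨p, a, b, T, hp1, hp2, hT, ha, hb, hab, hH, hsum⟩ :=
    acyclic_dual hk (fun u v => A u v ∧ lev u < lev v) lev fun _ _ h => h.2
  set up : V → V → Prop := fun x y => lev x ≠ 0 ∧ par x = y with hup
  have hR := removed_le up (fun _ _ _ p q => p.2.symm.trans q.2) a b (by
    rintro x y ⟨h1, rfl⟩
    have := hv x h1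
    exact hH _ _ ⟨this.1, by omega⟩)
  let R := univ.filter fun h => a h < b h ∧ ∃ u, u ≠ h ∧ a u < b u ∧ b u = b h ∧
    Relation.ReflTransGen up u h
  obtain ⟨c, hc1, hc2⟩ := colouring A hA k T.toNat ((univ.filter fun v => a v < b v) \ R)
    (fun v => (b v).toNat) (fun v hv => by
      have h1 := (mem_filter.1 (mem_sdiff.1 hv).1).2
      have h2 := ha v
      have h3 := hb v
      omega) (fun u hu v hv huv e => by
      have h1 := (mem_filter.1 (mem_sdiff.1 hu).1).2
      have h2 := (mem_filter.1 (mem_sdiff.1 hv).1).2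
      have h3 := ha u
      have h4 := ha v
      have h5 : b u = b v := by omega
      rcases hf u v huv with h | h
      · have := hH u v ⟨huv, h⟩
        omega
      · refine (mem_sdiff.1 hv).2 (mem_filter.2 ⟨mem_univ _, h2, u, ?_, h1, h5, h⟩)
        rintro rfl
        exact hA u huv)
  refine ⟨p, c, fun i => ⟨(hp1 i).1, fun n u v hu hv => ((hp1 i).2 n u v hu hv).1⟩, hp2, hc1,
    hc2.trans ?_⟩
  have h1 : ((univ.filter fun v => a v < b v) \ R)ᶜ.card ≤
      (univ.filter fun v => ¬ a v < b v).card + R.card := by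
    refine (card_le_card fun v hv => ?_).trans (card_union_le _ _)
    simp only [mem_compl, mem_sdiff, mem_filter, mem_univ, true_and, not_and, not_not,
      mem_union] at hv ⊢
    by_cases h : a v < b v
    · exact Or.inr (hv h)
    · exact Or.inl h
  have h2 : (((univ.filter fun v => ¬ a v < b v).card + ∑ w, (a w - b w).toNat : ℕ) : ℤ) ≤
      ∑ v, (1 + a v - b v) := by
    rw [card_filter, ← Finset.sum_add_distrib]
    push_cast
    refine Finset.sum_le_sum fun v _ => ?_
    have := hab v
    split_ifs <;> omega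
  have h3 : ((k * T.toNat : ℕ) : ℤ) = k * T := by push_cast; rw [Int.toNat_of_nonneg hT]
  have h4 : R.card ≤ ∑ w, (a w - b w).toNat := by convert hR
  omega

end Pool.Agent.Lib.MP_ccfeb5_co
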